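import Pool.Agent.Helper185.Fat4

namespace Pool.Agent.Results.MP_1f0905_gt.DichotomyFailsInZFC

open Pool.Agent.Helper185.Fat

/-- There is (in ZFC) a locally compact Hausdorff, locally metrizable space of weight at most
`ℵ₁` which contains no perfect preimage of `ω₁` and is not quasi-developable. -/
theorem result : ∃ (X : Type) (_ : TopologicalSpace X), T2Space X ∧ LocallyCompactSpace X ∧
    LocallyMetrizable X ∧ WeightLeAleph1 X ∧ ¬ ContainsPerfectPreimage X ∧
    ¬ QuasiDevelopable X :=
  exists_fat

end Pool.Agent.Results.MP_1f0905_gt.DichotomyFailsInZFC
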